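import Mathlib
import Pool.Agent.H895R2.SB.Act

set_option autoImplicit false

/-!
Actions on trees: a group that is the union of an increasing sequence of proper subgroups acts on a
tree without a fixed vertex; a group generated by two elements `a`, `b` such that `a`, `b` and
`a * b` have finite order fixes a vertex of every tree.
-/

namespace Pool.Agent.V1128.FA

open Pool.Agent.H895R2.SB

section Elliptic

variable {V : Type} {T : SimpleGraph V} {G : Type} [Group G] [MulAction G V]

/-- An element with a trivial power fixes a vertex. -/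
theorem elliptic_of_pow (hT : T.IsTree)
    (hadj : ∀ (g : G) (u v : V), T.Adj u v → T.Adj (g • u) (g • v))
    (hinv : ∀ (g : G) (u v : V), T.Adj u v → ¬ (g • u = v ∧ g • v = u)) (g : G) {m : ℕ}
    (hm : 0 < m) (hx : g ^ m = 1) : ∃ v : V, g • v = v := by
  by_contra hg
  obtain ⟨o, hpos, h2⟩ := exists_axis hT hadj hinv g hg
  have hz := axis_dist hT hadj g o hpos h2
  have e1 := hz m
  rw [hx, one_smul, SimpleGraph.dist_self] at e1
  have h3 : 0 < m * T.dist o (g • o) := Nat.mul_pos hm hpos
  omega

/-- Serre's lemma for groups generated by two elements. -/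
theorem fix_of_gen (hT : T.IsTree)
    (hadj : ∀ (g : G) (u v : V), T.Adj u v → T.Adj (g • u) (g • v))
    (hinv : ∀ (g : G) (u v : V), T.Adj u v → ¬ (g • u = v ∧ g • v = u)) (a b : G) {m : ℕ}
    (hm : 0 < m) (ha : a ^ m = 1) (hb : b ^ m = 1) (hab : (a * b) ^ m = 1)
    (hgen : Subgroup.closure {a, b} = ⊤) : ∃ v : V, ∀ g : G, g • v = v := by
  obtain ⟨x, hx1, hx2⟩ := serre hT hadj (elliptic_of_pow hT hadj hinv a hm ha)
    (elliptic_of_pow hT hadj hinv b hm hb) (elliptic_of_pow hT hadj hinv (a * b) hm hab)
  refine ⟨x, fun g => ?_⟩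
  have h1 : Subgroup.closure {a, b} ≤ MulAction.stabilizer G x := by
    rw [Subgroup.closure_le]
    rintro y (rfl | rfl)
    · exact hx1
    · exact hx2
  rw [hgen] at h1
  exact h1 (Subgroup.mem_top g)

end Elliptic

section Chain

variable {H : Type} [Group H] (K : ℕ → Subgroup H) (hK : Monotone K)

/-- The vertices of the tree of the chain `K`. -/
abbrev Vt := Σ j : ℕ, H ⧸ K j

variable {K}

/-- The parent of a vertex. -/
def par (hK : Monotone K) (v : Vt K) : Vt K :=
  ⟨v.1 + 1, Subgroup.quotientMapOfLE (hK (Nat.le_succ v.1)) v.2⟩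

/-- The tree of the chain `K`. -/
def tr (hK : Monotone K) : SimpleGraph (Vt K) where
  Adj v w := w = par hK v ∨ v = par hK w
  symm := ⟨fun _ _ h => h.symm⟩
  loopless := ⟨by
    rintro v (h | h) <;>
    · have := congrArg Sigma.fst h
      simp [par] at this⟩

theorem par_mk (j : ℕ) (g : H) :
    par hK ⟨j, (QuotientGroup.mk g : H ⧸ K j)⟩ = ⟨j + 1, (QuotientGroup.mk g : H ⧸ K (j + 1))⟩ := rfl

theorem par_smul (h : H) (v : Vt K) : par hK (h • v) = h • par hK v := by
  obtain ⟨j, x⟩ := v
  induction x using QuotientGroup.induction_on with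
  | H z => rfl

theorem reach_iter (i : ℕ) (g : H) (n : ℕ) : (tr hK).Reachable ⟨i, (QuotientGroup.mk g : H ⧸ K i)⟩
    ⟨i + n, (QuotientGroup.mk g : H ⧸ K (i + n))⟩ := by
  induction n with
  | zero => exact SimpleGraph.Reachable.refl _
  | succ n ih =>
    refine ih.trans (SimpleGraph.Adj.reachable ?_)
    exact Or.inl (par_mk hK (i + n) g).symm

theorem reach_max (i : ℕ) (g : H) (m : ℕ) (h : i ≤ m) :
    (tr hK).Reachable ⟨i, (QuotientGroup.mk g : H ⧸ K i)⟩ ⟨m, (QuotientGroup.mk g : H ⧸ K m)⟩ := by
  obtain ⟨n, rfl⟩ := Nat.exists_eq_add_of_le h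
  exact reach_iter hK i g n

/-- The set of descendants of `v`. -/
def desc (hK : Monotone K) (v w : Vt K) : Prop := ∃ n : ℕ, (par hK)^[n] w = v

theorem iter_fst (n : ℕ) (w : Vt K) : ((par hK)^[n] w).1 = w.1 + n := by
  induction n generalizing w with
  | zero => rfl
  | succ n ih =>
    rw [Function.iterate_succ_apply, ih]
    simp only [par]
    omega

theorem isAcyclic : (tr hK).IsAcyclic := by
  rw [SimpleGraph.isAcyclic_iff_forall_adj_isBridge]
  have key : ∀ v : Vt K, (tr hK).IsBridge s(v, par hK v) := by
    intro v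
    rw [SimpleGraph.isBridge_iff]
    intro hr
    obtain ⟨p⟩ := hr
    have hinv : ∀ a b : Vt K, (tr hK \ SimpleGraph.fromEdgeSet {s(v, par hK v)}).Walk a b →
        desc hK v a → desc hK v b := by
      intro a b q
      induction q with
      | nil => exact id
      | cons hadj _ ih =>
        rename_i a c _
        intro ha
        apply ih
        rw [SimpleGraph.sdiff_adj] at hadj
        obtain ⟨h1, h2⟩ := hadj
        rcases h1 with h1 | h1
        · obtain ⟨n, hn⟩ := ha
          rcases n with _ | n
          · exfalso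
            apply h2
            simp only [Function.iterate_zero, id] at hn
            rw [SimpleGraph.fromEdgeSet_adj]
            subst hn
            rw [h1]
            refine ⟨rfl, ?_⟩
            intro h3
            have := congrArg Sigma.fst h3
            simp [par] at this
          · exact ⟨n, by rw [h1]; exact hn⟩
        · obtain ⟨n, hn⟩ := ha
          exact ⟨n + 1, by rw [Function.iterate_succ_apply, ← h1]; exact hn⟩
    obtain ⟨n, hn⟩ := hinv _ _ p ⟨0, rfl⟩
    have := congrArg Sigma.fst hn
    rw [iter_fst] at this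
    simp only [par] at this
    omega
  intro v w h
  rcases h with h | h
  · rw [h]
    exact key v
  · rw [h, Sym2.eq_swap]
    exact key w

theorem isTree (htop : ∀ h : H, ∃ j, h ∈ K j) : (tr hK).IsTree := by
  refine ⟨?_, isAcyclic hK⟩
  have : Nonempty (Vt K) := ⟨⟨0, (QuotientGroup.mk 1 : H ⧸ K 0)⟩⟩
  refine ⟨fun v w => ?_⟩
  obtain ⟨i, x⟩ := v
  obtain ⟨j, y⟩ := w
  induction x using QuotientGroup.induction_on with
  | H g =>
    induction y using QuotientGroup.induction_on with
    | H h =>
      obtain ⟨k, hk⟩ := htop (g⁻¹ * h)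
      set m := max k (max i j)
      have h1 := reach_max hK i g m (by omega)
      have h2 := reach_max hK j h m (by omega)
      have h3 : (QuotientGroup.mk g : H ⧸ K m) = QuotientGroup.mk h := by
        rw [QuotientGroup.eq]
        exact hK (by omega : k ≤ m) hk
      rw [h3] at h1
      exact h1.trans h2.symm

include hK in
/-- A group that is the union of an increasing sequence of proper subgroups acts without a fixed
vertex and without inversions on a tree. -/
theorem not_fix (htop : ∀ h : H, ∃ j, h ∈ K j) (hne : ∀ j, ∃ h : H, h ∉ K j) :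
    ∃ (V : Type) (_ : MulAction H V) (T : SimpleGraph V), T.IsTree ∧
      (∀ h : H, ∀ x y : V, T.Adj x y → T.Adj (h • x) (h • y)) ∧
      (∀ h : H, ∀ x y : V, T.Adj x y → ¬ (h • x = y ∧ h • y = x)) ∧
      ¬ ∃ v : V, ∀ h : H, h • v = v := by
  refine ⟨Vt K, inferInstance, tr hK, isTree hK htop, ?_, ?_, ?_⟩
  · intro h x y hxy
    rcases hxy with h1 | h1
    · left
      rw [h1, par_smul]
    · right
      rw [h1, par_smul]
  · rintro h x y hxy ⟨h1, h2⟩
    have h3 : x.1 = y.1 := by rw [← h1]; rfl
    rcases hxy with h4 | h4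
    · have := congrArg Sigma.fst h4
      simp only [par] at this
      omega
    · have := congrArg Sigma.fst h4
      simp only [par] at this
      omega
  · rintro ⟨⟨j, x⟩, hv⟩
    induction x using QuotientGroup.induction_on with
    | H g =>
      obtain ⟨h, hh⟩ := hne j
      apply hh
      have h1 := hv (g * h * g⁻¹)
      have h2 : (⟨j, (QuotientGroup.mk ((g * h * g⁻¹) * g) : H ⧸ K j)⟩ : Vt K) = ⟨j, QuotientGroup.mk g⟩ := h1
      have h3 := eq_of_heq (Sigma.mk.inj h2).2
      rw [eq_comm, QuotientGroup.eq] at h3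
      have h4 : g⁻¹ * (g * h * g⁻¹ * g) = h := by group
      rwa [h4] at h3

end Chain

end Pool.Agent.V1128.FA
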