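import Mathlib
import Pool.Agent.V1128.FA.Chain

set_option autoImplicit false

/-!
The group `M[ω] ⋊ C₃` for an abelian group `M`.
-/

namespace Pool.Agent.V1128.FA

section General

variable (M : Type) [AddCommGroup M]

/-- Multiplication by `ω` on `M[ω] = M × M`. -/
def om : (M × M) ≃+ (M × M) where
  toFun v := (-v.2, v.1 - v.2)
  invFun v := (v.2 - v.1, -v.1)
  left_inv v := by ext <;> simp
  right_inv v := by ext <;> simp
  map_add' v w := by ext <;> simp <;> abel

theorem om_om_om (v : M × M) : om M (om M (om M v)) = v := by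
  ext
  · simp [om]
  · simp only [om, AddEquiv.coe_mk, Equiv.coe_fn_mk]
    abel

/-- The action of `C₃` on `M[ω]`. -/
def phi : Multiplicative (ZMod 3) →* MulAut (Multiplicative (M × M)) where
  toFun k := (AddEquiv.toMultiplicative (om M)) ^ (k.toAdd.val)
  map_one' := rfl
  map_mul' k l := by
    have h3 : (AddEquiv.toMultiplicative (om M) : MulAut (Multiplicative (M × M))) ^ 3 = 1 := by
      apply MulEquiv.ext
      intro v
      rw [pow_succ, pow_succ, pow_one, MulAut.mul_apply, MulAut.mul_apply, MulAut.one_apply]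
      exact om_om_om M v
    rw [← pow_add, toAdd_mul, ZMod.val_add, ← pow_eq_pow_mod _ h3]

/-- The group `M[ω] ⋊ C₃`. -/
abbrev W := SemidirectProduct (Multiplicative (M × M)) (Multiplicative (ZMod 3)) (phi M)

variable {M}

/-- A set of vectors that is closed under `ω` is closed under the action. -/
theorem phi_ind (P : M × M → Prop) (h : ∀ v, P v → P (om M v)) (k : Multiplicative (ZMod 3))
    (v : Multiplicative (M × M)) (hv : P v.toAdd) : P ((phi M k v).toAdd) := by
  have key : ∀ n : ℕ, P (((AddEquiv.toMultiplicative (om M) : MulAut (Multiplicative (M × M))) ^ n)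
      v).toAdd := by
    intro n
    induction n with
    | zero => exact hv
    | succ n ih =>
      rw [pow_succ']
      exact h _ ih
  exact key _

/-- The subgroup of `M[ω] ⋊ C₃` given by an `ω`-invariant subgroup of `M[ω]`. -/
def big (J : AddSubgroup (M × M)) (hJ : ∀ v ∈ J, om M v ∈ J) : Subgroup (W M) where
  carrier := {h | h.left.toAdd ∈ J}
  one_mem' := J.zero_mem
  mul_mem' := by
    intro a b ha hb
    exact J.add_mem ha (phi_ind (fun v => v ∈ J) hJ _ _ hb)
  inv_mem' := by
    intro a ha
    exact phi_ind (fun v => v ∈ J) hJ _ _ (J.neg_mem ha)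

/-- The normal subgroup `n M[ω]` of `M[ω] ⋊ C₃`. -/
def small (M : Type) [AddCommGroup M] (n : ℕ) : Subgroup (W M) where
  carrier := {h | h.right = 1 ∧ ∃ w : M × M, h.left.toAdd = n • w}
  one_mem' := ⟨rfl, 0, by simp⟩
  mul_mem' := by
    rintro a b ⟨ha, w, hw⟩ ⟨hb, w', hw'⟩
    refine ⟨by simp [ha, hb], w + w', ?_⟩
    rw [SemidirectProduct.mul_left, ha, map_one, toAdd_mul, hw]
    simp [hw']
  inv_mem' := by
    rintro a ⟨ha, w, hw⟩
    refine ⟨by simp [ha], -w, ?_⟩
    rw [SemidirectProduct.inv_left, ha]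
    simp [hw]

theorem mem_small {n : ℕ} {h : W M} : h ∈ small M n ↔ h.right = 1 ∧ ∃ w : M × M, h.left.toAdd = n • w :=
  Iff.rfl

instance small_normal (n : ℕ) : (small M n).Normal := by
  constructor
  rintro a ⟨ha, w, hw⟩ g
  have e : a = SemidirectProduct.inl a.left := by
    apply SemidirectProduct.ext
    · simp
    · simp [ha]
  have e2 : g = SemidirectProduct.inl g.left * SemidirectProduct.inr g.right := by simp
  have e3 : g * a * g⁻¹ = SemidirectProduct.inl (phi M g.right a.left) := by
    rw [e2, e, mul_inv_rev]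
    have : SemidirectProduct.inl (φ := phi M) g.left * SemidirectProduct.inr g.right *
        SemidirectProduct.inl a.left *
        ((SemidirectProduct.inr g.right)⁻¹ * (SemidirectProduct.inl g.left)⁻¹) =
        SemidirectProduct.inl g.left * (SemidirectProduct.inr g.right *
        SemidirectProduct.inl a.left * SemidirectProduct.inr g.right⁻¹) *
        (SemidirectProduct.inl g.left⁻¹) := by
      rw [map_inv, map_inv]
      group
    rw [this, ← SemidirectProduct.inl_aut, ← map_mul, ← map_mul]
    congr 1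
    rw [mul_comm g.left, mul_assoc]
    simp
  rw [e3, mem_small]
  refine ⟨by simp, ?_⟩
  rw [SemidirectProduct.left_inl]
  refine phi_ind (fun v => ∃ w : M × M, v = n • w) ?_ g.right a.left ⟨w, hw⟩
  rintro v ⟨w, rfl⟩
  exact ⟨om M w, by rw [map_nsmul]⟩

/-- `ι` has dense image: `M = ι ℤ + n M` for every `n > 0`. -/
def Dense (ι : ℤ →+ M) : Prop := ∀ n : ℕ, 0 < n → ∀ m : M, ∃ (z : ℤ) (m' : M), m = ι z + n • m'

theorem mk_eq {G : Type} [Group G] {N : Subgroup G} [hN : N.Normal] {h s p : G} (hs : s ∈ N)
    (e : h = s * p) : (QuotientGroup.mk h : G ⧸ N) = QuotientGroup.mk p := by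
  rw [QuotientGroup.eq, e, mul_inv_rev]
  have := hN.conj_mem _ (N.inv_mem hs) p⁻¹
  rwa [inv_inv] at this

theorem small_finite {ι : ℤ →+ M} (hι : Dense ι) {n : ℕ} (hn : 0 < n) : (small M n).index ≠ 0 := by
  have hfin : Finite (W M ⧸ small M n) := by
    have hn' : NeZero n := ⟨hn.ne'⟩
    let f : (Fin n × Fin n) × Multiplicative (ZMod 3) → W M ⧸ small M n := fun p =>
      QuotientGroup.mk (SemidirectProduct.inl (Multiplicative.ofAdd
        (ι (p.1.1.val : ℤ), ι (p.1.2.val : ℤ))) * SemidirectProduct.inr p.2)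
    have hZ : Dense (AddMonoidHom.id ℤ) := by
      intro m hm z
      exact ⟨z % m, z / m, by simp [Int.emod_add_mul_ediv]⟩
    have hfin' : ∀ m : M, ∃ (a : Fin n) (m' : M), m = ι (a.val : ℤ) + n • m' := by
      intro m
      obtain ⟨z, m', hz⟩ := hι n hn m
      have h1 : 0 ≤ z % n := Int.emod_nonneg _ (by omega)
      have h2 : z % n < n := Int.emod_lt_of_pos _ (by omega)
      refine ⟨⟨(z % n).toNat, by omega⟩, ι (z / n) + m', ?_⟩
      have h3 : (((z % n).toNat : ℕ) : ℤ) = z % n := Int.toNat_of_nonneg h1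
      simp only [h3]
      rw [hz, smul_add, ← add_assoc, ← map_nsmul, ← map_add]
      congr 2
      rw [nsmul_eq_mul, Int.emod_add_mul_ediv]
    apply Finite.of_surjective f
    intro q
    induction q using QuotientGroup.induction_on with
    | H h =>
      obtain ⟨a, m₁, h1⟩ := hfin' h.left.toAdd.1
      obtain ⟨b, m₂, h2⟩ := hfin' h.left.toAdd.2
      refine ⟨((a, b), h.right), ?_⟩
      rw [eq_comm]
      have e2 : h = SemidirectProduct.inl (Multiplicative.ofAdd (n • ((m₁, m₂) : M × M))) *
          (SemidirectProduct.inl (Multiplicative.ofAdd (ι (a.val : ℤ), ι (b.val : ℤ))) *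
          SemidirectProduct.inr h.right) := by
        apply SemidirectProduct.ext
        · simp only [SemidirectProduct.mul_left, SemidirectProduct.left_inl,
            SemidirectProduct.right_inl, map_one, SemidirectProduct.left_inr, mul_one,
            MulAut.one_apply]
          rw [← ofAdd_add]
          apply Multiplicative.toAdd.injective
          rw [toAdd_ofAdd]
          ext
          · rw [h1]
            simp [add_comm]
          · rw [h2]
            simp [add_comm]
        · simp
      have hmem : SemidirectProduct.inl (Multiplicative.ofAdd (n • ((m₁, m₂) : M × M))) ∈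
          small M n := by
        rw [mem_small]
        exact ⟨by simp, (m₁, m₂), by simp⟩
      exact mk_eq hmem e2
  exact Subgroup.index_ne_zero_of_finite

theorem small_le {N : Subgroup (W M)} (hN : N.Normal) :
    small M N.index ≤ N := by
  rintro h ⟨h1, w, hw⟩
  have e : h = (SemidirectProduct.inl (Multiplicative.ofAdd w)) ^ N.index := by
    rw [← map_pow, ← ofAdd_nsmul, ← hw]
    apply SemidirectProduct.ext
    · simp
    · simp [h1]
  rw [e]
  exact Subgroup.pow_index_mem N _

/-- `M` has no nonzero divisible elements. -/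
def Sep (M : Type) [AddCommGroup M] : Prop := ∀ m : M, (∀ n : ℕ, 0 < n → ∃ m' : M, m = n • m') → m = 0

theorem resFin {ι : ℤ →+ M} (hι : Dense ι) (hM : Sep M) :
    ∀ g : W M, g ≠ 1 → ∃ N : Subgroup (W M), N.Normal ∧ N.index ≠ 0 ∧ g ∉ N := by
  intro g hg
  by_contra hc
  push Not at hc
  apply hg
  have h1 : ∀ n : ℕ, 0 < n → g ∈ small M n := fun n hn =>
    hc _ (small_normal n) (small_finite hι hn)
  apply SemidirectProduct.ext
  · rw [SemidirectProduct.one_left]
    apply Multiplicative.toAdd.injective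
    rw [toAdd_one]
    ext
    · apply hM
      intro n hn
      obtain ⟨-, w, hw⟩ := h1 n hn
      exact ⟨w.1, by rw [hw]; rfl⟩
    · apply hM
      intro n hn
      obtain ⟨-, w, hw⟩ := h1 n hn
      exact ⟨w.2, by rw [hw]; rfl⟩
  · exact (h1 1 one_pos).1

end General

section Map

variable {M : Type} [AddCommGroup M]

theorem phi_map (ι : ℤ →+ M) (k : Multiplicative (ZMod 3)) (v : Multiplicative (ℤ × ℤ)) :
    AddMonoidHom.toMultiplicative (ι.prodMap ι) (phi ℤ k v) =
      phi M k (AddMonoidHom.toMultiplicative (ι.prodMap ι) v) := by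
  have key : ∀ n : ℕ, AddMonoidHom.toMultiplicative (ι.prodMap ι)
      (((AddEquiv.toMultiplicative (om ℤ) : MulAut (Multiplicative (ℤ × ℤ))) ^ n) v) =
      ((AddEquiv.toMultiplicative (om M) : MulAut (Multiplicative (M × M))) ^ n)
        (AddMonoidHom.toMultiplicative (ι.prodMap ι) v) := by
    intro n
    induction n with
    | zero => rfl
    | succ n ih =>
      rw [pow_succ', pow_succ', MulAut.mul_apply, MulAut.mul_apply, ← ih]
      generalize ((AddEquiv.toMultiplicative (om ℤ) : MulAut (Multiplicative (ℤ × ℤ))) ^ n) v = w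
      apply Multiplicative.toAdd.injective
      ext
      · exact map_neg ι _
      · exact map_sub ι _ _
  exact key _

/-- The map `ℤ[ω] ⋊ C₃ → M[ω] ⋊ C₃` induced by `ι`. -/
def uu (ι : ℤ →+ M) : W ℤ →* W M :=
  SemidirectProduct.map (AddMonoidHom.toMultiplicative (ι.prodMap ι)) (MonoidHom.id _) (by
    intro g
    apply MonoidHom.ext
    intro v
    exact phi_map ι g v)

theorem uu_left (ι : ℤ →+ M) (g : W ℤ) :
    (uu ι g).left.toAdd = (ι g.left.toAdd.1, ι g.left.toAdd.2) := rfl

theorem uu_right (ι : ℤ →+ M) (g : W ℤ) : (uu ι g).right = g.right := rfl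

theorem uu_inj {ι : ℤ →+ M} (h : Function.Injective ι) : Function.Injective (uu ι) := by
  intro a b hab
  have h1 := congrArg (fun g => (SemidirectProduct.left g).toAdd) hab
  have h2 := congrArg SemidirectProduct.right hab
  simp only [uu_left, Prod.mk.injEq] at h1
  apply SemidirectProduct.ext
  · apply Multiplicative.toAdd.injective
    ext
    · exact h h1.1
    · exact h h1.2
  · exact h2

theorem uu_comap {ι : ℤ →+ M} (hp : ∀ (n : ℕ) (z : ℤ) (m : M), 0 < n → ι z = n • m → (n : ℤ) ∣ z)
    {n : ℕ} (hn : 0 < n) : (small M n).comap (uu ι) ≤ small ℤ n := by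
  rintro g ⟨h1, w, hw⟩
  rw [uu_left] at hw
  have e1 := congrArg Prod.fst hw
  have e2 := congrArg Prod.snd hw
  obtain ⟨c, hc⟩ := hp n _ _ hn e1
  obtain ⟨d, hd⟩ := hp n _ _ hn e2
  refine ⟨h1, (c, d), ?_⟩
  ext
  · rw [hc]
    simp
  · rw [hd]
    simp

theorem uu_dense {ι : ℤ →+ M} (hι : Dense ι) {n : ℕ} (hn : 0 < n) (h : W M) :
    ∃ g : W ℤ, ∃ m ∈ small M n, h = uu ι g * m := by
  obtain ⟨z₁, m₁, h1⟩ := hι n hn h.left.toAdd.1
  obtain ⟨z₂, m₂, h2⟩ := hι n hn h.left.toAdd.2
  set g : W ℤ := SemidirectProduct.inl (Multiplicative.ofAdd (z₁, z₂)) *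
    SemidirectProduct.inr h.right with hg
  set s : W M := SemidirectProduct.inl (Multiplicative.ofAdd (n • ((m₁, m₂) : M × M))) with hs
  have hmem : s ∈ small M n := ⟨by simp [hs], (m₁, m₂), by simp [hs]⟩
  have e : h = s * uu ι g := by
    apply SemidirectProduct.ext
    · apply Multiplicative.toAdd.injective
      rw [SemidirectProduct.mul_left, hs, SemidirectProduct.left_inl, SemidirectProduct.right_inl,
        map_one, MulAut.one_apply, toAdd_mul, uu_left, toAdd_ofAdd]
      ext
      · rw [h1, hg]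
        simp [add_comm]
      · rw [h2, hg]
        simp [add_comm]
    · rw [hg, hs]
      simp [uu_right]
  refine ⟨g, (uu ι g)⁻¹ * s * uu ι g, ?_, ?_⟩
  · have := (small_normal (M := M) n).conj_mem _ hmem (uu ι g)⁻¹
    rwa [inv_inv] at this
  · rw [e]
    group

end Map

end Pool.Agent.V1128.FA
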