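import Mathlib
import Pool.Agent.V1128.FA.Grp

set_option autoImplicit false

/-!
The group `M = ℤ_(2) × ℤ[1/2]` with the diagonal copy of `ℤ`.
-/

namespace Pool.Agent.V1128.FA

/-- The rationals with odd denominator. -/
def Aodd : AddSubgroup ℚ where
  carrier := {q | ∃ m z : ℤ, Odd m ∧ (m : ℚ) * q = z}
  zero_mem' := ⟨1, 0, odd_one, by simp⟩
  add_mem' := by
    rintro a b ⟨m, z, hm, h⟩ ⟨m', z', hm', h'⟩
    refine ⟨m * m', m' * z + m * z', hm.mul hm', ?_⟩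
    push_cast
    rw [← h, ← h']
    ring
  neg_mem' := by
    rintro a ⟨m, z, hm, h⟩
    refine ⟨m, -z, hm, ?_⟩
    push_cast
    rw [← h]
    ring

/-- The rationals whose denominator is a power of two. -/
def Atwo : AddSubgroup ℚ where
  carrier := {q | ∃ (k : ℕ) (z : ℤ), (2 : ℚ) ^ k * q = z}
  zero_mem' := ⟨1, 0, by simp⟩
  add_mem' := by
    rintro a b ⟨m, z, h⟩ ⟨m', z', h'⟩
    refine ⟨m + m', 2 ^ m' * z + 2 ^ m * z', ?_⟩
    push_cast
    rw [← h, ← h']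
    ring
  neg_mem' := by
    rintro a ⟨m, z, h⟩
    refine ⟨m, -z, ?_⟩
    push_cast
    rw [← h]
    ring

/-- The group `M`. -/
abbrev MM := Aodd × Atwo

theorem int_mem_odd (z : ℤ) : (z : ℚ) ∈ Aodd := ⟨1, z, odd_one, by simp⟩
theorem int_mem_two (z : ℤ) : (z : ℚ) ∈ Atwo := ⟨0, z, by simp⟩

/-- The diagonal map. -/
def dg : ℤ →+ MM where
  toFun z := (⟨z, int_mem_odd z⟩, ⟨z, int_mem_two z⟩)
  map_zero' := by ext <;> simp
  map_add' a b := by ext <;> simp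

theorem dg_inj : Function.Injective dg := by
  intro a b h
  have h1 := congrArg (fun m : MM => (m.1 : ℚ)) h
  simpa [dg] using h1

theorem dg_dense : Dense dg := by
  intro n hn m
  obtain ⟨⟨x, o, a, ho, hx⟩, ⟨y, l, b, hy⟩⟩ := m
  obtain ⟨k, s, hs, rfl⟩ := Nat.exists_eq_two_pow_mul_odd hn.ne'
  have h2o : IsCoprime o 2 := by
    obtain ⟨t, rfl⟩ := ho
    exact ⟨1, -t, by ring⟩
  have h2s : IsCoprime (2 : ℤ) (s : ℤ) := by
    obtain ⟨t, rfl⟩ := hs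
    exact ⟨-t, 1, by push_cast; ring⟩
  obtain ⟨u, v, huv⟩ := h2o.pow_right (n := k)
  obtain ⟨u', v', huv'⟩ := h2s.pow_left (m := l)
  obtain ⟨w, w', hww⟩ := h2s.pow_left (m := k)
  set z : ℤ := a * u * (w' * s) + b * u' * (w * 2 ^ k) with hz
  have e1 : a - o * z = 2 ^ k * (a * v * w' * s + a * w - o * b * u' * w) := by
    rw [hz]
    linear_combination (-a) * hww - (a * w' * s) * huv
  have e2 : b - 2 ^ l * z = s * (b * v' * w * 2 ^ k + b * w' - 2 ^ l * a * u * w') := by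
    rw [hz]
    linear_combination (-b) * hww - (b * w * 2 ^ k) * huv'
  set c := a * v * w' * s + a * w - o * b * u' * w
  set c' := b * v' * w * 2 ^ k + b * w' - 2 ^ l * a * u * w'
  have ho0 : (o : ℚ) ≠ 0 := by
    have : o ≠ 0 := by rintro rfl; simp at ho
    exact_mod_cast this
  have hs0 : (s : ℚ) ≠ 0 := by
    have : s ≠ 0 := by rintro rfl; simp at hs
    exact_mod_cast this
  have e1' : (a : ℚ) - o * z = 2 ^ k * c := by exact_mod_cast e1
  have e2' : (b : ℚ) - 2 ^ l * z = s * c' := by exact_mod_cast e2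
  have h1 : (c / (s * o) : ℚ) ∈ Aodd := by
    refine ⟨s * o, c, ?_, ?_⟩
    · exact Odd.mul (by exact_mod_cast hs) ho
    · push_cast
      field_simp
  have h2 : (c' / (2 ^ (l + k)) : ℚ) ∈ Atwo := by
    refine ⟨l + k, c', ?_⟩
    field_simp
  refine ⟨z, (⟨_, h1⟩, ⟨_, h2⟩), ?_⟩
  apply Prod.ext
  · apply Subtype.ext
    change x = z + (2 ^ k * s) • (c / (s * o) : ℚ)
    rw [nsmul_eq_mul]
    push_cast
    field_simp
    linear_combination hx + e1'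
  · apply Subtype.ext
    change y = z + (2 ^ k * s) • (c' / (2 ^ (l + k)) : ℚ)
    rw [nsmul_eq_mul]
    push_cast
    field_simp
    rw [pow_add]
    linear_combination 2 ^ k * hy + 2 ^ k * e2'

theorem dg_pure : ∀ (n : ℕ) (z : ℤ) (m : MM), 0 < n → dg z = n • m → (n : ℤ) ∣ z := by
  intro n z m hn h
  obtain ⟨⟨x, o, a, ho, hx⟩, ⟨y, l, b, hy⟩⟩ := m
  have h1 : (z : ℚ) = n * x := by
    have := congrArg (fun m : MM => (m.1 : ℚ)) h
    simpa [dg] using this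
  have h2 : (z : ℚ) = n * y := by
    have := congrArg (fun m : MM => (m.2 : ℚ)) h
    simpa [dg] using this
  have hn0 : (n : ℚ) ≠ 0 := by exact_mod_cast hn.ne'
  have hxy : x = y := by
    apply mul_left_cancel₀ hn0
    rw [← h1, h2]
  subst hxy
  have h2o : IsCoprime o 2 := by
    obtain ⟨t, rfl⟩ := ho
    exact ⟨1, -t, by ring⟩
  obtain ⟨u, v, huv⟩ := h2o.pow_right (n := l)
  refine ⟨u * a + v * b, ?_⟩
  have huv' : (u : ℚ) * o + v * 2 ^ l = 1 := by exact_mod_cast huv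
  have : (z : ℚ) = n * (u * a + v * b) := by
    rw [h1, ← hx, ← hy]
    linear_combination (-(n : ℚ) * x) * huv'
  exact_mod_cast this

theorem dvd_all {a : ℤ} {p : ℕ} (hp : 1 < p) (h : ∀ k : ℕ, ((p : ℤ) ^ k) ∣ a) : a = 0 := by
  by_contra ha
  have h1 := Int.le_of_dvd (abs_pos.mpr ha) ((dvd_abs _ _).mpr (h a.natAbs))
  have h2 : a.natAbs < p ^ a.natAbs := Nat.lt_pow_self hp
  have h3 : ((a.natAbs : ℕ) : ℤ) < ((p ^ a.natAbs : ℕ) : ℤ) := by exact_mod_cast h2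
  push_cast at h3
  omega

theorem sep_MM : Sep MM := by
  intro m hm
  obtain ⟨⟨x, o, a, ho, hx⟩, ⟨y, l, b, hy⟩⟩ := m
  have ha : a = 0 := by
    apply dvd_all (p := 2) (by norm_num)
    intro k
    obtain ⟨⟨⟨x', o', a', ho', hx'⟩, m'⟩, h⟩ := hm (2 ^ k) (by positivity)
    have h1 : x = 2 ^ k * x' := by
      have := congrArg (fun m : MM => (m.1 : ℚ)) h
      simpa using this
    have e : (a * o' : ℚ) = 2 ^ k * (o * a') := by
      rw [← hx, ← hx', h1]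
      ring
    have e' : a * o' = 2 ^ k * (o * a') := by exact_mod_cast e
    have h2o : IsCoprime o' 2 := by
      obtain ⟨t, rfl⟩ := ho'
      exact ⟨1, -t, by ring⟩
    push_cast
    exact (h2o.symm.pow_left (m := k)).dvd_of_dvd_mul_right ⟨_, e'⟩
  have hb : b = 0 := by
    apply dvd_all (p := 3) (by norm_num)
    intro k
    obtain ⟨⟨m', ⟨y', l', b', hy'⟩⟩, h⟩ := hm (3 ^ k) (by positivity)
    have h1 : y = 3 ^ k * y' := by
      have := congrArg (fun m : MM => (m.2 : ℚ)) h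
      simpa using this
    have e : (b * 2 ^ l' : ℚ) = 3 ^ k * (2 ^ l * b') := by
      rw [← hy, ← hy', h1]
      ring
    have e' : b * 2 ^ l' = 3 ^ k * (2 ^ l * b') := by exact_mod_cast e
    have h3 : IsCoprime (3 : ℤ) 2 := ⟨1, -1, by norm_num⟩
    push_cast
    exact (h3.pow (m := k) (n := l')).dvd_of_dvd_mul_right ⟨_, e'⟩
  subst ha hb
  have ho0 : (o : ℚ) ≠ 0 := by
    have : o ≠ 0 := by rintro rfl; simp at ho
    exact_mod_cast this
  apply Prod.ext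
  · apply Subtype.ext
    change x = 0
    simpa [ho0] using hx
  · apply Subtype.ext
    change y = 0
    simpa using hy

theorem dense_int : Dense (AddMonoidHom.id ℤ) := by
  intro n hn m
  exact ⟨m, 0, by simp⟩

theorem sep_int : Sep ℤ := by
  intro m hm
  apply dvd_all (p := 2) (by norm_num)
  intro k
  obtain ⟨m', h⟩ := hm (2 ^ k) (by positivity)
  exact ⟨m', by rw [h, nsmul_eq_mul]; push_cast; rfl⟩

/-- The chain of subgroups of `M[ω]`. -/
def JJ (j : ℕ) : AddSubgroup (MM × MM) where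
  carrier := {v | (∃ z : ℤ, (2 : ℚ) ^ j * (v.1.2 : ℚ) = z) ∧ ∃ z : ℤ, (2 : ℚ) ^ j * (v.2.2 : ℚ) = z}
  zero_mem' := ⟨⟨0, by simp⟩, ⟨0, by simp⟩⟩
  add_mem' := by
    rintro v w ⟨⟨a, ha⟩, ⟨b, hb⟩⟩ ⟨⟨c, hc⟩, ⟨d, hd⟩⟩
    refine ⟨⟨a + c, ?_⟩, ⟨b + d, ?_⟩⟩
    · push_cast
      rw [← ha, ← hc]
      simp only [Prod.fst_add, Prod.snd_add, AddSubgroup.coe_add]
      ring
    · push_cast
      rw [← hb, ← hd]
      simp only [Prod.snd_add, AddSubgroup.coe_add]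
      ring
  neg_mem' := by
    rintro v ⟨⟨a, ha⟩, ⟨b, hb⟩⟩
    refine ⟨⟨-a, ?_⟩, ⟨-b, ?_⟩⟩
    · push_cast
      rw [← ha]
      simp
    · push_cast
      rw [← hb]
      simp

theorem JJ_om (j : ℕ) : ∀ v ∈ JJ j, om MM v ∈ JJ j := by
  rintro v ⟨⟨a, ha⟩, ⟨b, hb⟩⟩
  refine ⟨⟨-b, ?_⟩, ⟨a - b, ?_⟩⟩
  · push_cast
    rw [← hb]
    simp [om]
  · push_cast
    rw [← ha, ← hb]
    simp only [om, AddEquiv.coe_mk, Equiv.coe_fn_mk, Prod.snd_sub, AddSubgroup.coe_sub]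
    ring

/-- The chain of subgroups of `M[ω] ⋊ C₃`. -/
def KK (j : ℕ) : Subgroup (W MM) := big (JJ j) (JJ_om j)

theorem KK_mono : Monotone KK := by
  have key : ∀ i j : ℕ, ∀ q : ℚ, (∃ z : ℤ, (2 : ℚ) ^ i * q = z) → ∃ z : ℤ, (2 : ℚ) ^ (i + j) * q = z := by
    rintro i j q ⟨z, hz⟩
    refine ⟨2 ^ j * z, ?_⟩
    push_cast
    rw [← hz]
    ring
  intro i j hij h hh
  obtain ⟨k, rfl⟩ := Nat.exists_eq_add_of_le hij
  exact ⟨key i k _ hh.1, key i k _ hh.2⟩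

theorem KK_top (h : W MM) : ∃ j, h ∈ KK j := by
  obtain ⟨k, z, hk⟩ := h.left.toAdd.1.2.2
  obtain ⟨l, z', hl⟩ := h.left.toAdd.2.2.2
  refine ⟨k + l, ⟨2 ^ l * z, ?_⟩, ⟨2 ^ k * z', ?_⟩⟩
  · push_cast
    rw [← hk]
    ring
  · push_cast
    rw [← hl]
    ring

theorem KK_ne (j : ℕ) : ∃ h : W MM, h ∉ KK j := by
  have h1 : (1 / 2 ^ (j + 1) : ℚ) ∈ Atwo := ⟨j + 1, 1, by field_simp; norm_num⟩
  refine ⟨SemidirectProduct.inl (Multiplicative.ofAdd ((0, ⟨_, h1⟩), 0)), ?_⟩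
  rintro ⟨⟨z, hz⟩, -⟩
  have h2 : (2 : ℚ) ^ j * (1 / 2 ^ (j + 1)) = z := hz
  have h3 : (1 : ℚ) = 2 * z := by
    rw [← h2, pow_succ]
    field_simp
  have h4 : (1 : ℤ) = 2 * z := by exact_mod_cast h3
  omega

end Pool.Agent.V1128.FA
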